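import Mathlib
import Pool.Agent.P.MP_f0827e_co.Defs
import Pool.Agent.P.MP_f0827e_co.Orient
import Pool.Agent.P.MP_f0827e_co.Univ2

namespace Pool.Agent.Results.MP_f0827e_co.Dichotomy

open Pool.Agent.P.MP_f0827e_co

/-- The class of intersection graphs of connected subgraphs of subdivisions of a finite graph `Y`
is universal exactly when some connected component of `Y` contains two different cycles. -/
theorem result (W : Type) [Finite W] (Y : SimpleGraph W) :
    Universal Y ↔ ∃ (u v : W) (c : Y.Walk u u) (d : Y.Walk v v),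
      c.IsCycle ∧ d.IsCycle ∧ Y.Reachable u v ∧ c.edgeSet ≠ d.edgeSet := by
  constructor
  · intro hU
    by_contra hc
    refine not_universal Y (fun u v c d h1 h2 h3 => ?_) hU
    by_contra h4
    exact hc ⟨u, v, c, d, h1, h2, h3, h4⟩
  · rintro ⟨u, v, c, d, h1, h2, h3, h4⟩
    apply universal_of_two
    by_cases h : ∃ e ∈ c.edges, e ∉ d.edges
    · obtain ⟨e, a, b⟩ := h
      exact two_zero c d h1 h2 h3 a b
    · push Not at h
      by_cases h' : ∃ e ∈ d.edges, e ∉ c.edges
      · obtain ⟨e, a, b⟩ := h'
        exact two_zero d c h2 h1 h3.symm a b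
      · push Not at h'
        exact absurd (Set.ext fun e => ⟨h e, h' e⟩) h4

end Pool.Agent.Results.MP_f0827e_co.Dichotomy
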